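import Mathlib

/-!
# Two finite groups with isomorphic subrack lattices and non-isomorphic conjugation racks

The groups are `Z_91 ⋊ Z_3` with a generator of `Z_3` acting as multiplication by `16`,
respectively by `9`.
-/

set_option autoImplicit false

namespace Pool.Agent.Results.MP_f3891b_al.SubrackLattice

/-- `S` is a subrack of the conjugation rack of `G` (the empty set is allowed). -/
def IsSubrack {G : Type} [Group G] (S : Set G) : Prop :=
  ∀ x ∈ S, ∀ y ∈ S, x * y * x⁻¹ ∈ S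

/-- The subracks of the conjugation rack of `G`, ordered by inclusion. -/
abbrev Subracks (G : Type) [Group G] : Type := {S : Set G // IsSubrack S}

/-- an action of `Z_3` on `Z_91` by multiplications -/
structure Act (κ : ZMod 3 → ZMod 91) : Prop where
  zero : κ 0 = 1
  add : ∀ i j, κ (i + j) = κ i * κ j

/-- The underlying type: `(i, b)` is thought of as the affine map `x ↦ κ i * x + b`. -/
@[ext] structure Af where
  /-- the exponent -/
  i : ZMod 3
  /-- the translation part -/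
  b : ZMod 91

instance : Finite Af :=
  Finite.of_injective (fun x : Af => (x.i, x.b)) (by
    rintro ⟨i, a⟩ ⟨j, b⟩ h
    simp only [Prod.mk.injEq] at h
    rw [h.1, h.2])

/-- The group of affine maps. -/
@[reducible] def grp (κ : ZMod 3 → ZMod 91) (h : Act κ) : Group Af :=
  letI : Mul Af := ⟨fun x y => ⟨x.i + y.i, κ x.i * y.b + x.b⟩⟩
  letI : One Af := ⟨⟨0, 0⟩⟩
  letI : Inv Af := ⟨fun x => ⟨-x.i, -(κ (-x.i) * x.b)⟩⟩
  Group.ofLeftAxioms
    (by
      rintro ⟨i, a⟩ ⟨j, b⟩ ⟨k, c⟩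
      show Af.mk (i + j + k) (κ (i + j) * c + (κ i * b + a)) =
        Af.mk (i + (j + k)) (κ i * (κ j * c + b) + a)
      rw [h.add]
      congr 1
      · ring
      · ring)
    (by
      rintro ⟨i, a⟩
      show Af.mk (0 + i) (κ 0 * a + 0) = Af.mk i a
      rw [h.zero]
      congr 1
      · ring
      · ring)
    (by
      rintro ⟨i, a⟩
      show Af.mk (-i + i) (κ (-i) * a + -(κ (-i) * a)) = Af.mk 0 0
      congr 1
      · ring
      · ring)

/-- conjugation in coordinates -/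
def cj (κ : ZMod 3 → ZMod 91) (x y : Af) : Af := ⟨y.i, κ x.i * y.b + (1 - κ y.i) * x.b⟩

theorem grp_conj (κ : ZMod 3 → ZMod 91) (h : Act κ) (x y : Af) :
    letI := grp κ h
    x * y * x⁻¹ = cj κ x y := by
  obtain ⟨i, a⟩ := x
  obtain ⟨j, b⟩ := y
  show Af.mk (i + j + -i) (κ (i + j) * (-(κ (-i) * a)) + (κ i * b + a)) =
    Af.mk j (κ i * b + (1 - κ j) * a)
  have h1 : κ i * κ (-i) = 1 := by rw [← h.add, add_neg_cancel, h.zero]
  congr 1
  · ring
  · rw [h.add]
    linear_combination (-κ j * a) * h1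

/-- sets closed under conjugation -/
def Cl (κ : ZMod 3 → ZMod 91) (S : Set Af) : Prop := ∀ x ∈ S, ∀ y ∈ S, cj κ x y ∈ S

theorem cl_iff (κ : ZMod 3 → ZMod 91) (h : Act κ) (S : Set Af) :
    letI := grp κ h
    IsSubrack S ↔ Cl κ S := by
  unfold IsSubrack Cl
  constructor
  · intro hS x hx y hy
    rw [← grp_conj κ h]
    exact hS x hx y hy
  · intro hS x hx y hy
    rw [grp_conj κ h]
    exact hS x hx y hy

/-- the first action -/
def κ₁ : ZMod 3 → ZMod 91 := ![1, 16, 74]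

/-- the second action -/
def κ₂ : ZMod 3 → ZMod 91 := ![1, 9, 81]

theorem act₁ : Act κ₁ := ⟨by decide, by decide⟩

theorem act₂ : Act κ₂ := ⟨by decide, by decide⟩

/-- the first bijection on the translations -/
def β₁ (a : ZMod 91) : ZMod 91 :=
  (if a.val % 7 = 2 ∨ a.val % 7 = 6 then 29 else
    if a.val % 7 = 4 ∨ a.val % 7 = 5 then 22 else 1) * a

/-- its inverse -/
def β₂ (a : ZMod 91) : ZMod 91 :=
  (if a.val % 7 = 2 ∨ a.val % 7 = 6 then 22 else
    if a.val % 7 = 4 ∨ a.val % 7 = 5 then 29 else 1) * a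

/-- scaling constants -/
def u₁ : ZMod 3 → ZMod 91 := ![1, 43, 36]

/-- their inverses -/
def u₂ : ZMod 3 → ZMod 91 := ![1, 36, 43]

/-- the data of a comparison map from `κ` to `κ'` -/
structure Cmp (κ κ' : ZMod 3 → ZMod 91) (β : ZMod 91 → ZMod 91) (u v : ZMod 3 → ZMod 91) :
    Prop where
  orb : ∀ (i : ZMod 3) (a : ZMod 91), β (κ i * a) = β a ∨ β (κ i * a) = κ' i * β a ∨
    β (κ i * a) = κ' i * (κ' i * β a)
  cyc : ∀ a, ∃ m : ZMod 91, m * β a = a
  vu : ∀ i, v i * u i = 1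
  uk : ∀ i, u i * (1 - κ i) = 1 - κ' i
  p1 : ∀ i, (κ' i) ^ 12 = 1
  p2 : ∀ i, i ≠ 0 → (1 - κ' i) ^ 12 = 1
  kk : κ 0 = 1
  kk' : κ' 0 = 1

theorem cmp₁ : Cmp κ₁ κ₂ β₁ u₁ u₂ := by
  refine ⟨by decide +kernel, ?_, by decide, by decide, by decide, by decide, by decide,
    by decide⟩
  intro a
  refine ⟨(if a.val % 7 = 2 ∨ a.val % 7 = 6 then 22 else
    if a.val % 7 = 4 ∨ a.val % 7 = 5 then 29 else 1), ?_⟩
  revert a
  decide +kernel

theorem cmp₂ : Cmp κ₂ κ₁ β₂ u₂ u₁ := by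
  refine ⟨by decide +kernel, ?_, by decide, by decide, by decide, by decide, by decide,
    by decide⟩
  intro a
  refine ⟨(if a.val % 7 = 2 ∨ a.val % 7 = 6 then 29 else
    if a.val % 7 = 4 ∨ a.val % 7 = 5 then 22 else 1), ?_⟩
  revert a
  decide +kernel

/-- the comparison map -/
def F (β : ZMod 91 → ZMod 91) (u : ZMod 3 → ZMod 91) (x : Af) : Af :=
  ⟨x.i, if x.i = 0 then β x.b else u x.i * x.b⟩

theorem F_F (x : Af) : F β₂ u₂ (F β₁ u₁ x) = x := by
  have h : ∀ a, β₂ (β₁ a) = a := by decide +kernel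
  obtain ⟨i, a⟩ := x
  unfold F
  by_cases hi : i = 0
  · simp [hi, h]
  · simp only [hi, if_false]
    rw [← mul_assoc, cmp₁.vu, one_mul]

theorem F_F' (x : Af) : F β₁ u₁ (F β₂ u₂ x) = x := by
  have h : ∀ a, β₁ (β₂ a) = a := by decide +kernel
  obtain ⟨i, a⟩ := x
  unfold F
  by_cases hi : i = 0
  · simp [hi, h]
  · simp only [hi, if_false]
    rw [← mul_assoc, cmp₂.vu, one_mul]

theorem cj_mk (κ : ZMod 3 → ZMod 91) (i j : ZMod 3) (a b : ZMod 91) :
    cj κ ⟨i, a⟩ ⟨j, b⟩ = ⟨j, κ i * b + (1 - κ j) * a⟩ := rfl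

/-- The elements of a subrack lying in a fixed nontrivial coset form a coset of a subgroup. -/
theorem coset {κ' : ZMod 3 → ZMod 91} {T : Set Af} (hT : Cl κ' T) {j : ZMod 3}
    (h1 : (κ' j) ^ 12 = 1) (h2 : (1 - κ' j) ^ 12 = 1) {e e' : ZMod 91}
    (he : Af.mk j e ∈ T) (he' : Af.mk j e' ∈ T) (m : ZMod 91) :
    Af.mk j (e + m * (e' - e)) ∈ T := by
  -- multiplication by `κ' j` and by `1 - κ' j` around `e`
  have hk : ∀ n : ℕ, ∀ d, Af.mk j (e + d) ∈ T → Af.mk j (e + (κ' j) ^ n * d) ∈ T := by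
    intro n
    induction n with
    | zero => intro d hd; simpa using hd
    | succ n ih =>
      intro d hd
      have h3 := hT _ he _ (ih d hd)
      rw [cj_mk] at h3
      have h4 : κ' j * (e + (κ' j) ^ n * d) + (1 - κ' j) * e = e + (κ' j) ^ (n + 1) * d := by
        ring
      rwa [h4] at h3
  have hl : ∀ n : ℕ, ∀ d, Af.mk j (e + d) ∈ T → Af.mk j (e + (1 - κ' j) ^ n * d) ∈ T := by
    intro n
    induction n with
    | zero => intro d hd; simpa using hd
    | succ n ih =>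
      intro d hd
      have h3 := hT _ (ih d hd) _ he
      rw [cj_mk] at h3
      have h4 : κ' j * e + (1 - κ' j) * (e + (1 - κ' j) ^ n * d) =
          e + (1 - κ' j) ^ (n + 1) * d := by
        ring
      rwa [h4] at h3
  have hadd : ∀ d d', Af.mk j (e + d) ∈ T → Af.mk j (e + d') ∈ T →
      Af.mk j (e + (d + d')) ∈ T := by
    intro d d' hd hd'
    have h3 := hT _ (hl 11 d hd) _ (hk 11 d' hd')
    rw [cj_mk] at h3
    have h4 : κ' j * (e + (κ' j) ^ 11 * d') + (1 - κ' j) * (e + (1 - κ' j) ^ 11 * d) =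
        e + (d + d') := by
      linear_combination d' * h1 + d * h2
    rwa [h4] at h3
  have hn : ∀ n : ℕ, Af.mk j (e + n * (e' - e)) ∈ T := by
    intro n
    induction n with
    | zero => simpa using he
    | succ n ih =>
      have h3 := hadd (n * (e' - e)) (e' - e) ih (by simpa using he')
      have h4 : (n : ZMod 91) * (e' - e) + (e' - e) = ((n + 1 : ℕ) : ZMod 91) * (e' - e) := by
        push_cast
        ring
      rwa [h4] at h3
  have := hn m.val
  rwa [ZMod.natCast_zmod_val] at this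

/-- translating inside a coset -/
theorem trans {κ' : ZMod 3 → ZMod 91} (hk : κ' 0 = 1) {T : Set Af} (hT : Cl κ' T) {j : ZMod 3}
    {e d : ZMod 91} (he : Af.mk j e ∈ T) (hd : Af.mk 0 d ∈ T) (m : ZMod 91) :
    Af.mk j (e + (1 - κ' j) * (m * d)) ∈ T := by
  have hn : ∀ n : ℕ, Af.mk j (e + (1 - κ' j) * (n * d)) ∈ T := by
    intro n
    induction n with
    | zero => simpa using he
    | succ n ih =>
      have h3 := hT _ hd _ ih
      rw [cj_mk] at h3
      have h4 : κ' 0 * (e + (1 - κ' j) * (n * d)) + (1 - κ' j) * d =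
          e + (1 - κ' j) * (((n + 1 : ℕ) : ZMod 91) * d) := by
        rw [hk]
        push_cast
        ring
      rwa [h4] at h3
  have := hn m.val
  rwa [ZMod.natCast_zmod_val] at this

/-- The preimage of a subrack under the comparison map is a subrack. -/
theorem cl_preimage {κ κ' : ZMod 3 → ZMod 91} {β : ZMod 91 → ZMod 91} {u v : ZMod 3 → ZMod 91}
    (h : Cmp κ κ' β u v) {T : Set Af} (hT : Cl κ' T) : Cl κ (F β u ⁻¹' T) := by
  rintro ⟨i, b⟩ hx ⟨j, c⟩ hy
  rw [Set.mem_preimage] at hx hy ⊢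
  by_cases hj : j = 0
  · subst hj
    have h1 : F β u (cj κ ⟨i, b⟩ ⟨0, c⟩) = ⟨0, β (κ i * c)⟩ := by
      unfold F cj
      simp [h.kk]
    have h2 : F β u ⟨0, c⟩ = ⟨0, β c⟩ := by simp [F]
    have hstep : ∀ d, Af.mk 0 d ∈ T → Af.mk 0 (κ' i * d) ∈ T := by
      intro d hd
      have h3 := hT _ hx _ hd
      have h4 : cj κ' (F β u ⟨i, b⟩) ⟨0, d⟩ = ⟨0, κ' i * d⟩ := by
        unfold cj F
        simp [h.kk']
      rwa [h4] at h3
    rw [h2] at hy
    rw [h1]
    rcases h.orb i c with h3 | h3 | h3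
    · rw [h3]; exact hy
    · rw [h3]; exact hstep _ hy
    · rw [h3]; exact hstep _ (hstep _ hy)
  · have hFy : F β u ⟨j, c⟩ = ⟨j, u j * c⟩ := by simp [F, hj]
    have hF1 : F β u (cj κ ⟨i, b⟩ ⟨j, c⟩) = ⟨j, u j * (κ i * c + (1 - κ j) * b)⟩ := by
      unfold F cj
      simp [hj]
    rw [hFy] at hy
    rw [hF1]
    by_cases hi : i = 0
    · subst hi
      have hFx : F β u ⟨0, b⟩ = ⟨0, β b⟩ := by simp [F]
      rw [hFx] at hx
      obtain ⟨m, hm⟩ := h.cyc b
      have h3 := trans h.kk' hT hy hx m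
      rw [hm] at h3
      have h4 : u j * (κ 0 * c + (1 - κ j) * b) = u j * c + (1 - κ' j) * b := by
        rw [h.kk]
        linear_combination b * h.uk j
      rwa [h4]
    · have hFx : F β u ⟨i, b⟩ = ⟨i, u i * b⟩ := by simp [F, hi]
      rw [hFx] at hx
      have h3 := hT _ hx _ hy
      rw [cj_mk] at h3
      have h5 := coset hT (h.p1 j) (h.p2 j hj) hy h3 (v i)
      have h6 : u j * c + v i * (κ' i * (u j * c) + (1 - κ' j) * (u i * b) - u j * c) =
          u j * (κ i * c + (1 - κ j) * b) := by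
        have e1 := h.vu i
        have e2 := h.uk i
        have e3 := h.uk j
        have e4 : v i * (1 - κ' i) = 1 - κ i := by
          rw [← e2, ← mul_assoc, e1, one_mul]
        linear_combination (-u j * c) * e4 + (1 - κ' j) * b * e1 - b * e3
      rwa [h6] at h5

/-- Iterating the inner map of a translation. -/
theorem iter_zero {κ : ZMod 3 → ZMod 91} (hk : κ 0 = 1) (t : ZMod 91) (n : ℕ) (y : Af) :
    (cj κ ⟨0, t⟩)^[n] y = ⟨y.i, y.b + n * ((1 - κ y.i) * t)⟩ := by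
  induction n with
  | zero => simp
  | succ n ih =>
    rw [Function.iterate_succ_apply', ih, cj_mk]
    congr 1
    rw [hk]
    push_cast
    ring

theorem pow91 : ∀ s : ZMod 3, s ≠ 0 → (κ₂ s) ^ 91 ≠ 1 := by decide +kernel

theorem cast91 : ((91 : ℕ) : ZMod 91) = 0 := by decide +kernel

theorem solve_t : ∀ (i : ZMod 3) (t : ZMod 91),
    (1 - κ₂ 1) * (κ₂ i * t) = 16 * ((1 - κ₂ 1) * t) → 7 * t = 0 ∨ 13 * t = 0 := by
  decide +kernel

theorem not_iso : ¬ ∃ φ : Af ≃ Af, ∀ x y, φ (cj κ₁ x y) = cj κ₂ (φ x) (φ y) := by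
  rintro ⟨φ, hφ⟩
  have hit : ∀ (x y : Af) (n : ℕ), φ ((cj κ₁ x)^[n] y) = (cj κ₂ (φ x))^[n] (φ y) := by
    intro x y n
    induction n with
    | zero => rfl
    | succ n ih =>
      rw [Function.iterate_succ_apply', Function.iterate_succ_apply', hφ, ih]
  obtain ⟨⟨s, t⟩, hw⟩ : ∃ w, w = φ ⟨0, 1⟩ := ⟨_, rfl⟩
  obtain ⟨⟨i, e⟩, hh⟩ : ∃ w, w = φ ⟨1, 0⟩ := ⟨_, rfl⟩
  have h91 : ∀ n : ℕ, (n : ZMod 91) = 0 → ∀ y : Af, (cj κ₂ ⟨s, t⟩)^[n] y = y := by
    intro n hn y
    obtain ⟨y, rfl⟩ := φ.surjective y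
    rw [hw, ← hit, iter_zero act₁.zero, hn]
    simp
  have hs : s = 0 := by
    by_contra hs
    have h3 : ∀ n : ℕ, (cj κ₂ ⟨s, t⟩)^[n] ⟨0, 1⟩ = ⟨0, (κ₂ s) ^ n⟩ := by
      intro n
      induction n with
      | zero => simp
      | succ n ih =>
        rw [Function.iterate_succ_apply', ih, cj_mk]
        congr 1
        rw [act₂.zero]
        ring
    have h5 : ∀ n : ℕ, (n : ZMod 91) = 0 → (κ₂ s) ^ n = 1 := by
      intro n hn
      have h4 := h91 n hn ⟨0, 1⟩
      rw [h3] at h4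
      exact congrArg Af.b h4
    exact pow91 s hs (h5 91 cast91)
  subst hs
  have h16 : ∀ n : ℕ, (n : ZMod 91) = κ₁ 1 → ∀ y : Af,
      cj κ₂ (cj κ₂ ⟨i, e⟩ ⟨0, t⟩) y = (cj κ₂ ⟨0, t⟩)^[n] y := by
    intro n hn y
    obtain ⟨y, rfl⟩ := φ.surjective y
    rw [hw, hh, ← hit, ← hφ, ← hφ]
    congr 1
    rw [iter_zero act₁.zero, hn]
    show Af.mk y.i (κ₁ 0 * y.b + (1 - κ₁ y.i) * (κ₁ 1 * 1 + (1 - κ₁ 0) * 0)) =
      Af.mk y.i (y.b + κ₁ 1 * ((1 - κ₁ y.i) * 1))
    congr 1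
    rw [act₁.zero]
    ring
  have h17 : ∀ n : ℕ, (n : ZMod 91) = κ₁ 1 →
      (1 - κ₂ 1) * (κ₂ i * t) = (n : ZMod 91) * ((1 - κ₂ 1) * t) := by
    intro n hn
    have h18 := congrArg Af.b (h16 n hn ⟨1, 0⟩)
    rw [iter_zero act₂.zero, cj_mk, cj_mk] at h18
    simp only [act₂.zero] at h18
    linear_combination h18
  have h20 := solve_t i t (by
    have := h17 16 (by decide)
    push_cast at this
    exact this)
  have key : ∀ n : ℕ, ((n : ZMod 91)) * t = 0 → ((n : ZMod 91)) * (1 - κ₁ 1) = 0 := by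
    intro n hn
    have h22 : (cj κ₂ ⟨0, t⟩)^[n] (φ ⟨1, 0⟩) = φ ⟨1, 0⟩ := by
      rw [iter_zero act₂.zero]
      have h26 : (φ ⟨1, 0⟩).b + n * ((1 - κ₂ (φ ⟨1, 0⟩).i) * t) = (φ ⟨1, 0⟩).b := by
        linear_combination (1 - κ₂ (φ ⟨1, 0⟩).i) * hn
      rw [h26]
    rw [hw, ← hit] at h22
    have h23 := congrArg Af.b (φ.injective h22)
    rw [iter_zero act₁.zero] at h23
    have h24 : (0 : ZMod 91) + n * ((1 - κ₁ 1) * 1) = 0 := h23
    linear_combination h24
  rcases h20 with h | h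
  · have h25 := key 7 (by push_cast; exact h)
    revert h25
    decide
  · have h25 := key 13 (by push_cast; exact h)
    revert h25
    decide

/-- **Answer to Q1: yes.**  There are finite groups `G`, `H` whose subrack lattices are isomorphic
as ordered sets (equivalently, as lattices), while their conjugation racks are not isomorphic. -/
theorem result : ∃ (G H : Type) (_ : Group G) (_ : Group H),
    Finite G ∧ Finite H ∧ Nonempty (Subracks G ≃o Subracks H) ∧
    ¬ ∃ f : G ≃ H, ∀ x y : G, f (x * y * x⁻¹) = f x * f y * (f x)⁻¹ := by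
  refine ⟨Af, Af, grp κ₁ act₁, grp κ₂ act₂, inferInstance, inferInstance, ⟨?_⟩, ?_⟩
  · refine
      { toFun := fun S => ⟨F β₂ u₂ ⁻¹' S.1, ?_⟩
        invFun := fun S => ⟨F β₁ u₁ ⁻¹' S.1, ?_⟩
        left_inv := ?_
        right_inv := ?_
        map_rel_iff' := ?_ }
    · rw [cl_iff κ₂ act₂]
      exact cl_preimage cmp₂ ((cl_iff κ₁ act₁ _).1 S.2)
    · rw [cl_iff κ₁ act₁]
      exact cl_preimage cmp₁ ((cl_iff κ₂ act₂ _).1 S.2)
    · intro S
      apply Subtype.ext
      ext x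
      simp [Set.mem_preimage, F_F]
    · intro S
      apply Subtype.ext
      ext x
      simp [Set.mem_preimage, F_F']
    · intro S T
      constructor
      · intro h x hx
        have h1 : F β₂ u₂ (F β₁ u₁ x) ∈ S.1 := by rw [F_F]; exact hx
        have h2 : F β₁ u₁ x ∈ F β₂ u₂ ⁻¹' S.1 := h1
        have h3 := h h2
        have h4 : F β₂ u₂ (F β₁ u₁ x) ∈ T.1 := h3
        rwa [F_F] at h4
      · intro h x hx
        exact h hx
  · rintro ⟨f, hf⟩
    apply not_iso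
    refine ⟨f, fun x y => ?_⟩
    have h1 := hf x y
    rw [grp_conj κ₁ act₁ x y] at h1
    rw [h1]
    exact grp_conj κ₂ act₂ (f x) (f y)

end Pool.Agent.Results.MP_f3891b_al.SubrackLattice
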